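import Mathlib
import Pool.Agent.K7.H66.WilfCase3
import Pool.Agent.K7.H66.WilfIf

/-!
# Equality in Wilf's inequality when `F + 1 ≤ 3 m`

For every numerical semigroup whose conductor `F + 1` is at most three times its multiplicity `m`,
equality `F + 1 = d (F + 1 - g)` holds exactly in the two known families.

Idea. Split the nonzero Apery elements `x` into `X1` (`x + m < c`), `X2` (`x < c ≤ x + m`) and `X3`
(`c ≤ x`), where `c = F + 1`. Decomposable elements of `X2` are sums of two elements of `X1`, those of `X3`
are sums of two or three elements of `X1`, of an element of `X1` and a generator in `X2`, or of two generators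
in `X2`. A double count of these sums gives `c ≤ d (F + 1 - g)`, and equality forces the sums of at
most two (or at most three) elements of a set `P` of `d - 1` residues to represent every residue modulo
`m` exactly once. Counting differences `a + b - c` shows that this is impossible for `d ≥ 3`.
-/

set_option autoImplicit false

namespace Pool.Agent.Results.MP_05ec03_nt.ConductorThreeMult

open Pool.Agent.K7.H66

/-- Let `S` be a numerical semigroup other than `ℕ`, with Frobenius number `F`, genus `g`, multiplicity `m` and
set of minimal generators `A`, and suppose `F + 1 ≤ 3 m`. Then `F + 1 = |A| (F + 1 - g)` if and only if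
`|A| = 2`, or `|A| = m` and `A = {m, K m + 1, ..., K m + (m - 1)}` for some `K`. -/
theorem result :
    ∀ (S : AddSubmonoid ℕ) (F g m : ℕ) (A : Finset ℕ),
      F ∉ S →
      (∀ n : ℕ, F < n → n ∈ S) →
      Set.ncard {n : ℕ | n ∉ S} = g →
      (∀ a : ℕ, a ∈ A ↔
        (a ∈ S ∧ a ≠ 0 ∧ ∀ x ∈ S, ∀ y ∈ S, x + y = a → x = 0 ∨ y = 0)) →
      m ∈ S → m ≠ 0 → (∀ x ∈ S, x ≠ 0 → m ≤ x) →
      F + 1 ≤ 3 * m →
      (F + 1 = A.card * (F + 1 - g) ↔
        (A.card = 2 ∨
          (A.card = m ∧ ∃ K : ℕ,
            A = insert m ((Finset.Icc 1 (m - 1)).image (fun j => K * m + j))))) := by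
  classical
  intro S F g m A hF hF' hg hA hm hm0 hmin h3
  constructor
  · intro heq
    rw [(WM.left_card hF' hg).1] at heq
    have hcS : ∀ n, F + 1 ≤ n → n ∈ S := fun n hn => hF' n (by omega)
    rcases Nat.lt_or_ge (2 * m) (F + 1) with h2 | h2
    · exact WM.case3 hcS hA hm hm0 hmin h2 h3 heq
    rcases Nat.lt_or_ge m (F + 1) with h1 | h1
    · exact WM.case2 hcS hA hm hm0 hmin h1 h2 heq
    · -- `F + 1 = m`
      right
      have hFm : F + 1 = m := by
        by_contra hne
        have h4 : m - 1 ∈ S := hF' _ (by omega)
        have h5 : m - 1 ≠ 0 := by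
          intro h0
          have : F = 0 := by omega
          rw [this] at hF
          exact hF S.zero_mem
        have := hmin _ h4 h5
        omega
      refine WM.family hcS hA hm hm0 hmin 1 le_rfl (by omega) ?_
      intro x hx hxc
      by_cases x0 : x = 0
      · rw [x0]; exact dvd_zero m
      · have := hmin x hx x0
        omega
  · rintro (h | ⟨h, K, hK⟩)
    · exact WM.if_two hF hF' hg hA h
    · exact WM.if_family hF hF' hg hA hm hm0 hmin h K hK

end Pool.Agent.Results.MP_05ec03_nt.ConductorThreeMult
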